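import Pool.Agent.Helper64.SC.Main

set_option autoImplicit false

open Finset Filter Topology

open scoped Classical

namespace Pool.Agent.Results.MP_e4d2a2_pr.SpanningClusters

open Pool.Agent.Helper64.SC

/-- Critical site percolation on the triangular lattice (embedded with the sites `ℤ²`) in the square
`[0,R]²`.  Write `L_R` for the length of the shortest left-right crossing and `L(C)` for the length of the
shortest crossing inside the spanning cluster `C`.  For all `k` and `R`, the `k`-th moments given `H_R` of
`L_R` (`mom`), of `L(C)` for a spanning cluster `C` selected by any rule, such as the lowest or the largest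
one (`momSel`), of the largest of the `L(C)` (`momMax`), and the expectation of the sum of `L(C)^k` over
all spanning clusters (`momSum`) increase in this order, and the last one is at most twice the first one.
The `k`-th moment of `L_R` given that there is exactly one spanning cluster (`momOne`) is between one half
and twice the one given `H_R`.

Hence, for `k = 1`, the exponent `α` of `E[L_R | H_R]` exists and has the value `a` iff the same is true
for each of the other four quantities. -/
theorem result :
    (∃ σ : ℕ → Finset V → Finset V, Selects σ) ∧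
    ∀ σ : ℕ → Finset V → Finset V, Selects σ → ∀ k : ℕ,
      (∀ R : ℕ, 1 ≤ mom k R ∧ mom k R ≤ momSel σ k R ∧ momSel σ k R ≤ momMax k R ∧
        momMax k R ≤ momSum k R ∧ momSum k R ≤ 2 * mom k R ∧
        mom k R / 2 ≤ momOne k R ∧ momOne k R ≤ 2 * mom k R) ∧
      ∀ α : ℝ,
        (Tendsto (fun R : ℕ => Real.log (mom k R) / Real.log R) atTop (𝓝 α) ↔
          Tendsto (fun R : ℕ => Real.log (momSel σ k R) / Real.log R) atTop (𝓝 α)) ∧
        (Tendsto (fun R : ℕ => Real.log (mom k R) / Real.log R) atTop (𝓝 α) ↔
          Tendsto (fun R : ℕ => Real.log (momMax k R) / Real.log R) atTop (𝓝 α)) ∧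
        (Tendsto (fun R : ℕ => Real.log (mom k R) / Real.log R) atTop (𝓝 α) ↔
          Tendsto (fun R : ℕ => Real.log (momSum k R) / Real.log R) atTop (𝓝 α)) ∧
        (Tendsto (fun R : ℕ => Real.log (mom k R) / Real.log R) atTop (𝓝 α) ↔
          Tendsto (fun R : ℕ => Real.log (momOne k R) / Real.log R) atTop (𝓝 α)) := by
  refine ⟨?_, fun σ hσ k => ⟨fun R => ⟨mom_ge_one k R, mom_le_sel σ hσ k R, sel_le_max σ hσ k R,
    max_le_sum k R, sum_le_mom k R, by linarith [mom_le_one k R], one_le_mom k R⟩, fun α => ?_⟩⟩
  · have key : ∀ (R : ℕ) (ω : Finset V), ∃ C : Finset V, H R ω → C ∈ Span R ω := by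
      intro R ω
      by_cases h : H R ω
      · obtain ⟨C, hC⟩ := Span_nonempty.2 h
        exact ⟨C, fun _ => hC⟩
      · exact ⟨∅, fun h' => absurd h' h⟩
    choose σ hσ using key
    exact ⟨σ, fun R ω _ h => hσ R ω h⟩
  · obtain ⟨h1, h2, h3, h4⟩ := exps k α σ hσ
    exact ⟨h3, h1, h2, h4⟩

end Pool.Agent.Results.MP_e4d2a2_pr.SpanningClusters
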